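import Mathlib

set_option autoImplicit false

namespace Pool.Agent.H999R3.Lcm

/-- a pair of adjacent fractions around log p / log q -/
def St (p q a b c d : ℕ) : Prop :=
  1 ≤ a ∧ 1 ≤ c ∧ a * d = b * c + 1 ∧ q ^ b < p ^ a ∧ p ^ c < q ^ d

theorem st_start {p q : ℕ} (hp : 2 ≤ p) (hq : 2 ≤ q)
    (hne : ∀ a b : ℕ, 1 ≤ a → p ^ a ≠ q ^ b) :
    ∃ b d : ℕ, St p q 1 b 1 d := by
  refine ⟨Nat.log q p, Nat.log q p + 1, le_refl _, le_refl _, by ring, ?_, ?_⟩
  · have h1 : q ^ Nat.log q p ≤ p := Nat.pow_log_le_self q (by omega)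
    have h2 := hne 1 (Nat.log q p) (le_refl _)
    rw [pow_one] at h2 ⊢
    exact lt_of_le_of_ne h1 (fun h => h2 h.symm)
  · rw [pow_one]
    exact Nat.lt_pow_succ_log_self (by omega) p

theorem grow {p q a b c d : ℕ} (hp : 2 ≤ p) (hq : 2 ≤ q) (h : p ^ c < q ^ d) :
    ∃ n : ℕ, p ^ (a + (n + 1) * c) < q ^ (b + (n + 1) * d) := by
  have hpc : (0 : ℝ) < (p : ℝ) ^ c := by positivity
  have h1 : (1 : ℝ) < (q : ℝ) ^ d / (p : ℝ) ^ c := by
    rw [one_lt_div hpc]
    exact_mod_cast h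
  obtain ⟨n, hn⟩ := pow_unbounded_of_one_lt ((p : ℝ) ^ a) h1
  refine ⟨n, ?_⟩
  have h2 : (p : ℝ) ^ a < ((q : ℝ) ^ d / (p : ℝ) ^ c) ^ (n + 1) := by
    refine lt_of_lt_of_le hn ?_
    exact pow_le_pow_right₀ h1.le (by omega)
  rw [div_pow, lt_div_iff₀ (by positivity)] at h2
  have hqb : (1 : ℝ) ≤ (q : ℝ) ^ b := one_le_pow₀ (by exact_mod_cast (by omega : 1 ≤ q))
  have h3 : (p : ℝ) ^ (a + (n + 1) * c) < (q : ℝ) ^ (b + (n + 1) * d) := by
    calc (p : ℝ) ^ (a + (n + 1) * c) = (p : ℝ) ^ a * ((p : ℝ) ^ c) ^ (n + 1) := by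
          rw [pow_add, ← pow_mul, mul_comm c (n + 1)]
      _ < ((q : ℝ) ^ d) ^ (n + 1) := h2
      _ ≤ (q : ℝ) ^ b * ((q : ℝ) ^ d) ^ (n + 1) := by
          nlinarith [pow_pos (pow_pos (by positivity : (0 : ℝ) < q) d) (n + 1)]
      _ = (q : ℝ) ^ (b + (n + 1) * d) := by ring
  exact_mod_cast h3

theorem st_good {p q a b c d : ℕ} (hp : 2 ≤ p) (hq : 2 ≤ q)
    (hne : ∀ a b : ℕ, 1 ≤ a → p ^ a ≠ q ^ b) (h : St p q a b c d) :
    ∃ a' b' : ℕ, St p q a' b' c d ∧ p ^ (a' + c) < q ^ (b' + d) := by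
  classical
  obtain ⟨ha, hc, hdet, hab, hcd⟩ := h
  have hex := grow (a := a) (b := b) hp hq hcd
  let n := Nat.find hex
  have hn : p ^ (a + (n + 1) * c) < q ^ (b + (n + 1) * d) := Nat.find_spec hex
  refine ⟨a + n * c, b + n * d, ⟨by omega, hc, ?_, ?_, hcd⟩, ?_⟩
  · nlinarith
  · rcases Nat.eq_zero_or_pos n with h0 | h0
    · rw [h0]
      simpa using hab
    · have hmin := Nat.find_min hex (m := n - 1) (by change n - 1 < n; omega)
      have e : n - 1 + 1 = n := by omega
      rw [e] at hmin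
      have h1 : q ^ (b + n * d) ≤ p ^ (a + n * c) := by omega
      exact lt_of_le_of_ne h1 (fun hh => hne (a + n * c) (b + n * d) (by omega) hh.symm)
  · have e1 : a + n * c + c = a + (n + 1) * c := by ring
    have e2 : b + n * d + d = b + (n + 1) * d := by ring
    rw [e1, e2]
    exact hn

theorem good {p q : ℕ} (hp : 2 ≤ p) (hq : 2 ≤ q)
    (hne : ∀ a b : ℕ, 1 ≤ a → p ^ a ≠ q ^ b) (K : ℕ) :
    ∃ a b c d : ℕ, K ≤ c ∧ St p q a b c d ∧ p ^ (a + c) < q ^ (b + d) := by
  induction K with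
  | zero =>
    obtain ⟨b, d, h⟩ := st_start hp hq hne
    obtain ⟨a', b', h1, h2⟩ := st_good hp hq hne h
    exact ⟨a', b', 1, d, by omega, h1, h2⟩
  | succ K ih =>
    obtain ⟨a, b, c, d, hK, ⟨ha, hc, hdet, hab, hcd⟩, hg⟩ := ih
    have h : St p q a b (a + c) (b + d) := by
      refine ⟨ha, by omega, ?_, hab, hg⟩
      nlinarith
    obtain ⟨a', b', h1, h2⟩ := st_good hp hq hne h
    exact ⟨a', b', a + c, b + d, by omega, h1, h2⟩

/-- the key lemma: log of the shifted power -/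
theorem log_shift {p q a b c d : ℕ} (hp : 2 ≤ p) (hq : 2 ≤ q)
    (h : St p q a b c d) (hg : p ^ (a + c) < q ^ (b + d)) (u : ℕ) (hu : u < a + c) :
    Nat.log q (p ^ (u + a)) = Nat.log q (p ^ u) + b := by
  obtain ⟨ha, hc, hdet, hab, hcd⟩ := h
  set k := Nat.log q (p ^ u) with hk
  have hlow : q ^ k ≤ p ^ u := Nat.pow_log_le_self q (by positivity)
  have hup : p ^ u < q ^ (k + 1) := Nat.lt_pow_succ_log_self (by omega) _
  apply Nat.log_eq_of_pow_le_of_lt_pow
  · rw [pow_add, pow_add]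
    exact Nat.mul_le_mul hlow hab.le
  · by_contra hcon
    push Not at hcon
    set P := Real.log p with hP
    set Q := Real.log q with hQ
    have hp0 : (0 : ℝ) < p := by exact_mod_cast (by omega : 0 < p)
    have hq0 : (0 : ℝ) < q := by exact_mod_cast (by omega : 0 < q)
    have key : ∀ m n : ℕ, p ^ m < q ^ n → (m : ℝ) * P < n * Q := by
      intro m n hmn
      have h1 : ((p : ℝ) ^ m) < (q : ℝ) ^ n := by exact_mod_cast hmn
      have h2 := Real.log_lt_log (by positivity) h1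
      rwa [Real.log_pow, Real.log_pow] at h2
    have key' : ∀ m n : ℕ, q ^ n < p ^ m → (n : ℝ) * Q < m * P := by
      intro m n hmn
      have h1 : ((q : ℝ) ^ n) < (p : ℝ) ^ m := by exact_mod_cast hmn
      have h2 := Real.log_lt_log (by positivity) h1
      rwa [Real.log_pow, Real.log_pow] at h2
    have keyle : ∀ m n : ℕ, q ^ n ≤ p ^ m → (n : ℝ) * Q ≤ m * P := by
      intro m n hmn
      have h1 : ((q : ℝ) ^ n) ≤ (p : ℝ) ^ m := by exact_mod_cast hmn
      have h2 := Real.log_le_log (by positivity) h1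
      rwa [Real.log_pow, Real.log_pow] at h2
    have h1 := key' a b hab
    have h2 := key c d hcd
    have h3 := key (a + c) (b + d) hg
    have h4 := key u (k + 1) hup
    have h5 := keyle (u + a) (k + b + 1) hcon
    push_cast at h3 h4 h5
    set α := (a : ℝ) * P - b * Q with hα
    set η := (d : ℝ) * Q - c * P with hη
    have hα0 : 0 < α := by rw [hα]; linarith
    have hη0 : α < η := by rw [hα, hη]; nlinarith
    let x : ℤ := u * d - (k + 1) * c
    let y : ℤ := (k + 1) * a - u * b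
    have hdetZ : (a : ℤ) * d = b * c + 1 := by exact_mod_cast hdet
    have hxu : (u : ℤ) = x * a + y * c := by
      have : (u : ℤ) = u * (a * d - b * c) := by rw [hdetZ]; ring
      rw [this]
      simp only [x, y]
      ring
    have hyk : ((k : ℤ) + 1) = x * b + y * d := by
      have : ((k : ℤ) + 1) = (k + 1) * (a * d - b * c) := by rw [hdetZ]; ring
      rw [this]
      simp only [x, y]
      ring
    have hxuR : (u : ℝ) = x * a + y * c := by exact_mod_cast hxu
    have hykR : ((k : ℝ) + 1) = x * b + y * d := by exact_mod_cast hyk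
    have hκ : ((k : ℝ) + 1) * Q - u * P = - (x : ℝ) * α + y * η := by
      rw [hxuR, hykR, hα, hη]
      ring
    have hκ0 : 0 < - (x : ℝ) * α + y * η := by rw [← hκ]; linarith
    have hκ1 : - (x : ℝ) * α + y * η ≤ α := by
      rw [← hκ, hα]
      nlinarith
    rcases le_or_gt y 0 with hy | hy
    · have hyR : (y : ℝ) ≤ 0 := by exact_mod_cast hy
      have hx : (x : ℝ) < 0 := by
        by_contra hx
        push Not at hx
        nlinarith [mul_nonneg hx hα0.le, mul_nonpos_of_nonpos_of_nonneg hyR (by linarith : (0 : ℝ) ≤ η)]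
      have hxZ : x ≤ -1 := by
        have : x < 0 := by exact_mod_cast hx
        omega
      have h7 : x * a ≤ -1 * a := mul_le_mul_of_nonneg_right hxZ (by positivity)
      have h8 : y * c ≤ 0 := mul_nonpos_of_nonpos_of_nonneg hy (by positivity)
      have : (u : ℤ) ≥ 0 := by positivity
      omega
    · have hxy : y ≤ x := by
        by_contra hxy
        push Not at hxy
        have h9 : x + 1 ≤ y := by omega
        have h9R : (x : ℝ) + 1 ≤ y := by exact_mod_cast h9
        have hyR : (0 : ℝ) < y := by exact_mod_cast hy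
        nlinarith [mul_le_mul_of_nonneg_right h9R hα0.le, mul_lt_mul_of_pos_left hη0 hyR]
      have h10 : (1 : ℤ) ≤ y := by omega
      have h11 : (1 : ℤ) ≤ x := by omega
      have h12 : (1 : ℤ) * a ≤ x * a := mul_le_mul_of_nonneg_right h11 (by positivity)
      have h13 : (1 : ℤ) * c ≤ y * c := mul_le_mul_of_nonneg_right h10 (by positivity)
      omega

end Pool.Agent.H999R3.Lcm
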