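import Pool.Agent.H999R3.Lcm.Rel

set_option autoImplicit false

namespace Pool.Agent.H999R3.Lcm

/-- positive integers with all prime factors in P -/
def Good (P : Finset ℕ) (m : ℕ) : Prop := 0 < m ∧ m.primeFactors ⊆ P

theorem good_iff {p q : ℕ} (hp : p.Prime) (hq : q.Prime) (hpq : p ≠ q) (m : ℕ) :
    Good {p, q} m ↔ ∃ u v : ℕ, m = p ^ u * q ^ v := by
  constructor
  · rintro ⟨h0, h1⟩
    refine ⟨m.factorization p, m.factorization q, ?_⟩
    have h2 := Nat.prod_factorization_pow_eq_self h0.ne'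
    rw [Finsupp.prod_of_support_subset (s := {p, q}) _ (by
      rw [Nat.support_factorization]
      exact h1) _ (by intro i _; simp), Finset.prod_pair hpq] at h2
    exact h2.symm
  · rintro ⟨u, v, rfl⟩
    have hp0 := hp.pos
    have hq0 := hq.pos
    refine ⟨by positivity, ?_⟩
    intro r hr
    have hrp := Nat.prime_of_mem_primeFactors hr
    have hrd := Nat.dvd_of_mem_primeFactors hr
    rw [Finset.mem_insert, Finset.mem_singleton]
    rcases (Nat.Prime.dvd_mul hrp).1 hrd with h | h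
    · left
      exact (Nat.prime_dvd_prime_iff_eq hrp hp).1 (hrp.dvd_of_dvd_pow h)
    · right
      exact (Nat.prime_dvd_prime_iff_eq hrp hq).1 (hrp.dvd_of_dvd_pow h)

theorem good_infinite {p q : ℕ} (hp : p.Prime) (hq : q.Prime) (hpq : p ≠ q) :
    (setOf (Good {p, q})).Infinite := by
  apply Set.infinite_of_injective_forall_mem (f := fun u : ℕ => p ^ u)
    (Nat.pow_right_injective hp.two_le)
  intro u
  exact (good_iff hp hq hpq _).2 ⟨u, 0, by simp⟩

theorem pow_ne {p q : ℕ} (hp : p.Prime) (hq : q.Prime) (hpq : p ≠ q) (a b : ℕ) (ha : 1 ≤ a) :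
    p ^ a ≠ q ^ b := by
  intro h
  apply hpq
  have h1 : p ∣ q ^ b := by
    rw [← h]
    exact dvd_pow_self p (by omega)
  exact (Nat.prime_dvd_prime_iff_eq hp hq).1 (hp.dvd_of_dvd_pow h1)

theorem prod_inj {p q : ℕ} (hp : p.Prime) (hq : q.Prime) (hpq : p ≠ q) :
    Function.Injective (fun z : ℕ × ℕ => p ^ z.1 * q ^ z.2) := by
  have hp0 := hp.pos
  have hq0 := hq.pos
  have key : ∀ u v : ℕ, (p ^ u * q ^ v).factorization p = u ∧ (p ^ u * q ^ v).factorization q = v := by
    intro u v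
    rw [Nat.factorization_mul (by positivity) (by positivity), hp.factorization_pow,
      hq.factorization_pow]
    constructor
    · simp [Finsupp.single_apply, hpq.symm]
    · simp [Finsupp.single_apply, hpq]
  rintro ⟨u, v⟩ ⟨u', v'⟩ h
  simp only at h
  have h1 := key u v
  rw [h] at h1
  have h2 := key u' v'
  rw [Prod.mk.injEq]
  exact ⟨h1.1.symm.trans h2.1, h1.2.symm.trans h2.2⟩

theorem lcm_eq {p q : ℕ} (hp : p.Prime) (hq : q.Prime) (hpq : p ≠ q) (n : ℕ) :
    (Finset.range (n + 1)).lcm (fun i => Nat.nth (Good {p, q}) i) =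
      p ^ Nat.log p (Nat.nth (Good {p, q}) n) * q ^ Nat.log q (Nat.nth (Good {p, q}) n) := by
  have hinf := good_infinite hp hq hpq
  have hp0 := hp.pos
  have hq0 := hq.pos
  set T := Nat.nth (Good {p, q}) n with hT
  have hTgood : Good {p, q} T := Nat.nth_mem_of_infinite hinf n
  have hmono := Nat.nth_strictMono hinf
  have hmem : ∀ x, Good {p, q} x → x ≤ T →
      x ∣ (Finset.range (n + 1)).lcm (fun i => Nat.nth (Good {p, q}) i) := by
    intro x hx hxT
    have h1 : x ∈ Set.range (Nat.nth (Good {p, q})) := by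
      rw [Nat.range_nth_of_infinite hinf]
      exact hx
    obtain ⟨i, rfl⟩ := h1
    have h2 : i ≤ n := hmono.le_iff_le.1 hxT
    exact Finset.dvd_lcm (f := fun i => Nat.nth (Good {p, q}) i) (Finset.mem_range.2 (by omega))
  apply Nat.dvd_antisymm
  · apply Finset.lcm_dvd
    intro i hi
    have hi' := Finset.mem_range.1 hi
    have h1 : Nat.nth (Good {p, q}) i ≤ T := hmono.monotone (by omega)
    obtain ⟨u, v, huv⟩ := (good_iff hp hq hpq _).1 (Nat.nth_mem_of_infinite hinf i)
    rw [huv] at h1 ⊢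
    have hu : p ^ u ≤ T := le_trans (Nat.le_mul_of_pos_right _ (by positivity)) h1
    have hv : q ^ v ≤ T := le_trans (Nat.le_mul_of_pos_left _ (by positivity)) h1
    apply mul_dvd_mul
    · exact pow_dvd_pow p (Nat.le_log_of_pow_le hp.one_lt hu)
    · exact pow_dvd_pow q (Nat.le_log_of_pow_le hq.one_lt hv)
  · apply Nat.Coprime.mul_dvd_of_dvd_of_dvd
    · exact Nat.Coprime.pow _ _ ((Nat.coprime_primes hp hq).2 hpq)
    · apply hmem
      · exact (good_iff hp hq hpq _).2 ⟨_, 0, by simp; rfl⟩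
      · exact Nat.pow_log_le_self p hTgood.1.ne'
    · apply hmem
      · exact (good_iff hp hq hpq _).2 ⟨0, _, by simp; rfl⟩
      · exact Nat.pow_log_le_self q hTgood.1.ne'

theorem sum_eq {p q : ℕ} (hp : p.Prime) (hq : q.Prime) (hpq : p ≠ q) :
    ∑' n : ℕ, (1 : ℝ) / (((Finset.range (n + 1)).lcm
      (fun i => Nat.nth (Good {p, q}) i) : ℕ) : ℝ) =
      ∑' z : ℕ × ℕ, F p q (p ^ z.1 * q ^ z.2) := by
  have hinf := good_infinite hp hq hpq
  have h1 : ∀ n : ℕ, (1 : ℝ) / (((Finset.range (n + 1)).lcm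
      (fun i => Nat.nth (Good {p, q}) i) : ℕ) : ℝ) = F p q (Nat.nth (Good {p, q}) n) := by
    intro n
    rw [lcm_eq hp hq hpq]
    unfold F
    push_cast
    rfl
  simp only [h1]
  have h2 := tsum_range (F p q) (Nat.nth_injective hinf)
  have h3 := tsum_range (F p q) (prod_inj hp hq hpq)
  rw [← h2, ← h3]
  apply tsum_congr_set_coe
  rw [Nat.range_nth_of_infinite hinf]
  ext x
  constructor
  · intro hx
    obtain ⟨u, v, huv⟩ := (good_iff hp hq hpq _).1 hx
    exact ⟨(u, v), huv.symm⟩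
  · rintro ⟨z, rfl⟩
    exact (good_iff hp hq hpq _).2 ⟨z.1, z.2, rfl⟩

end Pool.Agent.H999R3.Lcm
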