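import Pool.Agent.H999R3.Lcm.Ser

set_option autoImplicit false

namespace Pool.Agent.H999R3.Lcm

/-- the reciprocal of the least common multiple, as a function of the last element -/
noncomputable def F (p q T : ℕ) : ℝ := 1 / ((p : ℝ) ^ Nat.log p T * (q : ℝ) ^ Nat.log q T)

theorem log_step {b : ℕ} (hb : 2 ≤ b) (n : ℕ) :
    (b ^ Nat.log b (n + 2) = n + 2 ∧ Nat.log b (n + 2) = Nat.log b (n + 1) + 1) ∨
    (b ^ Nat.log b (n + 2) ≠ n + 2 ∧ Nat.log b (n + 2) = Nat.log b (n + 1)) := by
  have h1 : b ^ Nat.log b (n + 2) ≤ n + 2 := Nat.pow_log_le_self b (by omega)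
  have h2 : n + 2 < b ^ (Nat.log b (n + 2) + 1) := Nat.lt_pow_succ_log_self (by omega) _
  rcases eq_or_ne (b ^ Nat.log b (n + 2)) (n + 2) with h | h
  · left
    refine ⟨h, ?_⟩
    have hpos : Nat.log b (n + 2) ≠ 0 := by
      intro h0
      rw [h0, pow_zero] at h
      omega
    obtain ⟨l, hl⟩ := Nat.exists_eq_succ_of_ne_zero hpos
    rw [hl] at h ⊢
    have h3 : Nat.log b (n + 1) = l := by
      apply Nat.log_eq_of_pow_le_of_lt_pow
      · rw [pow_succ] at h
        have : 1 ≤ b ^ l := Nat.one_le_pow _ _ (by omega)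
        nlinarith
      · change n + 1 < b ^ (l.succ)
        omega
    rw [h3]
  · right
    refine ⟨h, ?_⟩
    symm
    apply Nat.log_eq_of_pow_le_of_lt_pow
    · omega
    · omega

/-- the contribution of one base -/
noncomputable def g (b : ℕ) (f : ℕ → ℝ) (n : ℕ) : ℝ :=
  if b ^ Nat.log b (n + 2) = n + 2 then ((b : ℝ) - 1) * f (n + 2) else 0

theorem F_diff {p q : ℕ} (hp : 2 ≤ p) (hq : 2 ≤ q)
    (hne : ∀ a b : ℕ, 1 ≤ a → p ^ a ≠ q ^ b) (n : ℕ) :
    F p q (n + 1) - F p q (n + 2) = g p (F p q) n + g q (F p q) n := by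
  have hp0 : (0 : ℝ) < p := by exact_mod_cast (by omega : 0 < p)
  have hq0 : (0 : ℝ) < q := by exact_mod_cast (by omega : 0 < q)
  rcases log_step hp n with ⟨h1, h2⟩ | ⟨h1, h2⟩ <;> rcases log_step hq n with ⟨h3, h4⟩ | ⟨h3, h4⟩
  · exfalso
    refine hne (Nat.log p (n + 2)) (Nat.log q (n + 2)) ?_ (h1.trans h3.symm)
    omega
  · unfold g
    rw [if_pos h1, if_neg h3]
    unfold F
    rw [h2, h4]
    field_simp
    ring
  · unfold g
    rw [if_neg h1, if_pos h3]
    unfold F
    rw [h2, h4]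
    field_simp
    ring
  · unfold g
    rw [if_neg h1, if_neg h3]
    unfold F
    rw [h2, h4]
    ring

theorem F_pow_left {p q : ℕ} (hp : 2 ≤ p) (u : ℕ) : F p q (p ^ u) = t p q u := by
  unfold F t
  rw [Nat.log_pow (by omega)]

theorem F_comm (p q T : ℕ) : F p q T = F q p T := by
  unfold F
  rw [mul_comm]

theorem g_hasSum {p q : ℕ} (hp : 2 ≤ p) (hq : 2 ≤ q) :
    HasSum (g p (F p q)) (((p : ℝ) - 1) * (∑' u, t p q u - 1)) := by
  let φ : ℕ → ℕ := fun u => p ^ (u + 1) - 2
  have hφ2 : ∀ u, p ^ (u + 1) - 2 + 2 = p ^ (u + 1) := by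
    intro u
    have h1 : 1 ≤ p ^ u := Nat.one_le_pow _ _ (by omega)
    have : 2 ≤ p ^ (u + 1) := by rw [pow_succ]; nlinarith
    omega
  have hinj : Function.Injective φ := by
    intro u v huv
    have h1 : p ^ (u + 1) = p ^ (v + 1) := by
      rw [← hφ2 u, ← hφ2 v]
      simp only [φ] at huv
      rw [huv]
    have := Nat.pow_right_injective hp h1
    omega
  rw [← hinj.hasSum_iff]
  · have h1 : (g p (F p q)) ∘ φ = fun u => ((p : ℝ) - 1) * t p q (u + 1) := by
      funext u
      simp only [Function.comp, φ, g]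
      rw [hφ2, Nat.log_pow (by omega), if_pos rfl, F_pow_left hp]
    rw [h1]
    apply HasSum.mul_left
    have h2 : ∑' u, t p q u - 1 = ∑' u, t p q (u + 1) := by
      rw [(t_summable hp hq).tsum_eq_zero_add]
      have : t p q 0 = 1 := by
        unfold t
        simp
      rw [this]
      ring
    rw [h2]
    exact ((summable_nat_add_iff 1).2 (t_summable hp hq)).hasSum
  · intro n hn
    unfold g
    rw [if_neg]
    intro h
    apply hn
    have hpos : Nat.log p (n + 2) ≠ 0 := by
      intro h0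
      rw [h0, pow_zero] at h
      omega
    obtain ⟨l, hl⟩ := Nat.exists_eq_succ_of_ne_zero hpos
    refine ⟨l, ?_⟩
    simp only [φ]
    rw [hl] at h
    change p ^ (l + 1) = n + 2 at h
    rw [h]
    omega

theorem g_congr {b : ℕ} {f f' : ℕ → ℝ} (h : ∀ n, f n = f' n) : g b f = g b f' := by
  have : f = f' := funext h
  rw [this]

theorem relation {p q : ℕ} (hp : 2 ≤ p) (hq : 2 ≤ q)
    (hne : ∀ a b : ℕ, 1 ≤ a → p ^ a ≠ q ^ b) :
    ((p : ℝ) - 1) * (∑' u, t p q u - 1) + ((q : ℝ) - 1) * (∑' u, t q p u - 1) = 1 := by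
  have hp0 : (0 : ℝ) < p := by exact_mod_cast (by omega : 0 < p)
  have hq0 : (0 : ℝ) < q := by exact_mod_cast (by omega : 0 < q)
  have hp1 : (1 : ℝ) ≤ p := by exact_mod_cast (by omega : 1 ≤ p)
  have hq1 : (1 : ℝ) ≤ q := by exact_mod_cast (by omega : 1 ≤ q)
  have h1 := g_hasSum (p := p) (q := q) hp hq
  have h2 := g_hasSum (p := q) (q := p) hq hp
  rw [g_congr (F_comm q p)] at h2
  have h3 := h1.add h2
  have h4 : HasSum (fun n => F p q (n + 1) - F p q (n + 2)) 1 := by
    rw [hasSum_iff_tendsto_nat_of_nonneg]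
    · have e : ∀ n : ℕ, ∑ i ∈ Finset.range n, (F p q (i + 1) - F p q (i + 2)) = 1 - F p q (n + 1) := by
        intro n
        have := Finset.sum_range_sub' (fun i => F p q (i + 1)) n
        rw [this]
        have e0 : F p q (0 + 1) = 1 := by
          unfold F
          simp
        rw [e0]
      simp only [e]
      have h5 : Filter.Tendsto (fun n : ℕ => F p q (n + 1)) Filter.atTop (nhds 0) := by
        have h6 : Filter.Tendsto (fun n : ℕ => (p : ℝ) * (1 / ((n : ℝ) + 1))) Filter.atTop (nhds 0) := by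
          have := (tendsto_one_div_add_atTop_nhds_zero_nat (𝕜 := ℝ)).const_mul (p : ℝ)
          simpa using this
        refine squeeze_zero (fun n => ?_) (fun n => ?_) h6
        · unfold F
          positivity
        · unfold F
          have h7 : n + 1 < p ^ (Nat.log p (n + 1) + 1) := Nat.lt_pow_succ_log_self (by omega) _
          have h8 : (n : ℝ) + 1 < (p : ℝ) ^ (Nat.log p (n + 1)) * p := by
            rw [← pow_succ]
            exact_mod_cast h7
          have h9 : (1 : ℝ) ≤ (q : ℝ) ^ Nat.log q (n + 1) := one_le_pow₀ hq1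
          rw [mul_one_div, div_le_div_iff₀ (by positivity) (by positivity)]
          have h10 : (0 : ℝ) < (p : ℝ) * (p : ℝ) ^ Nat.log p (n + 1) := by positivity
          nlinarith
      have := h5.const_sub (1 : ℝ)
      simpa using this
    · intro n
      rw [sub_nonneg]
      unfold F
      apply one_div_le_one_div_of_le (by positivity)
      apply mul_le_mul _ _ (by positivity) (by positivity)
      · exact pow_le_pow_right₀ hp1 (Nat.log_mono_right (by omega))
      · exact pow_le_pow_right₀ hq1 (Nat.log_mono_right (by omega))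
  have h5 : (fun n => F p q (n + 1) - F p q (n + 2)) = fun n => g p (F p q) n + g q (F p q) n :=
    funext (F_diff hp hq hne)
  rw [h5] at h4
  exact h3.unique h4

theorem log_mul_pow {p : ℕ} (hp : 2 ≤ p) (u m : ℕ) (hm : m ≠ 0) :
    Nat.log p (p ^ u * m) = u + Nat.log p m := by
  induction u with
  | zero => simp
  | succ u ih =>
    have h1 : p ^ (u + 1) * m = p ^ u * m * p := by rw [pow_succ]; ring
    rw [h1, Nat.log_mul_base (by omega) (by positivity), ih]
    ring

theorem F_prod {p q : ℕ} (hp : 2 ≤ p) (hq : 2 ≤ q) (u v : ℕ) :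
    F p q (p ^ u * q ^ v) = t p q u * t q p v := by
  have hp0 : (0 : ℝ) < p := by exact_mod_cast (by omega : 0 < p)
  have hq0 : (0 : ℝ) < q := by exact_mod_cast (by omega : 0 < q)
  unfold F t
  have h1 : Nat.log p (p ^ u * q ^ v) = u + Nat.log p (q ^ v) :=
    log_mul_pow hp u _ (by positivity)
  have h2 : Nat.log q (p ^ u * q ^ v) = v + Nat.log q (p ^ u) := by
    rw [mul_comm]
    exact log_mul_pow hq v _ (by positivity)
  rw [h1, h2, pow_add, pow_add, one_div_mul_one_div]
  congr 1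
  ring

/-- the sum over all products of powers is irrational -/
theorem irr {p q : ℕ} (hp : 2 ≤ p) (hq : 2 ≤ q)
    (hne : ∀ a b : ℕ, 1 ≤ a → p ^ a ≠ q ^ b) :
    Irrational (∑' z : ℕ × ℕ, F p q (p ^ z.1 * q ^ z.2)) := by
  have h1 : ∑' z : ℕ × ℕ, F p q (p ^ z.1 * q ^ z.2) = (∑' u, t p q u) * (∑' v, t q p v) := by
    simp only [F_prod hp hq]
    symm
    exact tsum_mul_tsum_of_summable_norm (t_summable hp hq).norm (t_summable hq hp).norm
  rw [h1]
  rintro ⟨r, hr⟩
  have hrel := relation hp hq hne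
  set A := ∑' u, t p q u with hA
  set C := ∑' v, t q p v with hC
  have hnq := not_quadratic hp hq hne ((r.den : ℤ) * ((p : ℤ) - 1)) (- ((r.den : ℤ) * ((p : ℤ) + q - 1)))
    (((q : ℤ) - 1) * r.num) (by
      apply mul_ne_zero
      · exact_mod_cast r.den_nz
      · omega)
  apply hnq
  rw [← hA]
  push_cast
  have hden : (r.den : ℝ) ≠ 0 := by exact_mod_cast r.den_nz
  have hr2 : (r.num : ℝ) = r.den * (A * C) := by
    rw [← hr, mul_comm]
    have : (r : ℝ) = (r.num : ℝ) / r.den := by exact_mod_cast (Rat.num_div_den r).symm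
    rw [this]
    field_simp
  rw [hr2]
  have h5 : ((q : ℝ) - 1) * C = (q : ℝ) - ((p : ℝ) - 1) * (A - 1) := by linarith
  have h6 : ((q : ℝ) - 1) * (r.den * (A * C)) = r.den * (A * (((q : ℝ) - 1) * C)) := by ring
  rw [h6, h5]
  ring

end Pool.Agent.H999R3.Lcm
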