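import Pool.Agent.H999R3.Lcm.Base

set_option autoImplicit false

namespace Pool.Agent.H999R3.Lcm

/-- the terms along the powers of p -/
noncomputable def t (p q u : ℕ) : ℝ := 1 / ((p : ℝ) ^ u * (q : ℝ) ^ Nat.log q (p ^ u))

theorem t_pos {p q : ℕ} (hp : 2 ≤ p) (hq : 2 ≤ q) (u : ℕ) : 0 < t p q u := by
  have hp0 : (0 : ℝ) < p := by exact_mod_cast (by omega : 0 < p)
  have hq0 : (0 : ℝ) < q := by exact_mod_cast (by omega : 0 < q)
  unfold t
  positivity

theorem t_le {p q : ℕ} (hp : 2 ≤ p) (hq : 2 ≤ q) (u : ℕ) :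
    t p q u ≤ q * (1 / (p : ℝ) ^ 2) ^ u := by
  have hp0 : (0 : ℝ) < p := by exact_mod_cast (by omega : 0 < p)
  have hq0 : (0 : ℝ) < q := by exact_mod_cast (by omega : 0 < q)
  have h1 : p ^ u < q ^ (Nat.log q (p ^ u) + 1) := Nat.lt_pow_succ_log_self (by omega) _
  have h2 : (p : ℝ) ^ u < (q : ℝ) ^ (Nat.log q (p ^ u) + 1) := by exact_mod_cast h1
  rw [pow_succ] at h2
  unfold t
  rw [one_div_pow, ← pow_mul, mul_one_div, div_le_div_iff₀ (by positivity) (by positivity)]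
  have h3 : (p : ℝ) ^ (2 * u) = (p : ℝ) ^ u * (p : ℝ) ^ u := by rw [← pow_add]; congr 1; ring
  rw [h3]
  have h4 : (0 : ℝ) < (p : ℝ) ^ u := by positivity
  nlinarith [mul_lt_mul_of_pos_left h2 h4]

theorem ratio_lt {p : ℕ} (hp : 2 ≤ p) : 1 / (p : ℝ) ^ 2 ≤ 1 / 4 := by
  have hp2 : (2 : ℝ) ≤ p := by exact_mod_cast hp
  apply one_div_le_one_div_of_le (by norm_num)
  nlinarith

theorem geo_summable {p : ℕ} (hp : 2 ≤ p) : Summable (fun u : ℕ => (1 / (p : ℝ) ^ 2) ^ u) := by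
  apply summable_geometric_of_lt_one (by positivity)
  linarith [ratio_lt hp]

theorem t_summable {p q : ℕ} (hp : 2 ≤ p) (hq : 2 ≤ q) : Summable (t p q) :=
  Summable.of_nonneg_of_le (fun u => (t_pos hp hq u).le) (t_le hp hq)
    ((geo_summable hp).mul_left _)

theorem tail_le {p q : ℕ} (hp : 2 ≤ p) (hq : 2 ≤ q) (U : ℕ) :
    ∑' u, t p q (u + U) ≤ 2 * q * (1 / (p : ℝ) ^ 2) ^ U := by
  have hq0 : (0 : ℝ) < q := by exact_mod_cast (by omega : 0 < q)
  have hr := ratio_lt hp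
  have hr0 : (0 : ℝ) ≤ 1 / (p : ℝ) ^ 2 := by positivity
  have h1 : Summable (fun u => t p q (u + U)) := (summable_nat_add_iff U).2 (t_summable hp hq)
  have h2 : Summable (fun u : ℕ => (q : ℝ) * (1 / (p : ℝ) ^ 2) ^ U * (1 / (p : ℝ) ^ 2) ^ u) :=
    (geo_summable hp).mul_left _
  have h3 : ∑' u, t p q (u + U) ≤ ∑' u : ℕ, (q : ℝ) * (1 / (p : ℝ) ^ 2) ^ U * (1 / (p : ℝ) ^ 2) ^ u := by
    apply Summable.tsum_le_tsum _ h1 h2
    intro u
    refine le_trans (t_le hp hq _) (le_of_eq ?_)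
    rw [pow_add]
    ring
  rw [tsum_mul_left, tsum_geometric_of_lt_one hr0 (by linarith)] at h3
  refine le_trans h3 ?_
  have h4 : (1 - 1 / (p : ℝ) ^ 2)⁻¹ ≤ 2 := by
    rw [inv_le_comm₀ (by linarith) (by norm_num)]
    linarith
  have h5 : (0 : ℝ) ≤ (q : ℝ) * (1 / (p : ℝ) ^ 2) ^ U := by positivity
  nlinarith

theorem log_ge {p q a b : ℕ} (hq : 2 ≤ q) (hp : 2 ≤ p) (hab : q ^ b < p ^ a) (u : ℕ) :
    Nat.log q (p ^ u) + b ≤ Nat.log q (p ^ (u + a)) := by
  apply Nat.le_log_of_pow_le (by omega)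
  rw [pow_add, pow_add]
  exact Nat.mul_le_mul (Nat.pow_log_le_self q (by positivity)) hab.le

theorem approx {p q : ℕ} (hp : 2 ≤ p) (hq : 2 ≤ q)
    (hne : ∀ a b : ℕ, 1 ≤ a → p ^ a ≠ q ^ b) (ε : ℝ) (hε : 0 < ε) :
    ∃ M N : ℤ, 0 < M ∧ 0 < (N : ℝ) - M * ∑' u, t p q u ∧
      (M : ℝ) * ((N : ℝ) - M * ∑' u, t p q u) < ε := by
  have hp0 : (0 : ℝ) < p := by exact_mod_cast (by omega : 0 < p)
  have hq0 : (0 : ℝ) < q := by exact_mod_cast (by omega : 0 < q)
  have hr := ratio_lt hp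
  have hr0 : (0 : ℝ) ≤ 1 / (p : ℝ) ^ 2 := by positivity
  obtain ⟨K, hK⟩ := exists_pow_lt_of_lt_one (show (0 : ℝ) < ε / (2 * q) by positivity)
    (show 1 / (p : ℝ) ^ 2 < 1 by linarith)
  obtain ⟨a, b, c, d, hKc, hst, hg⟩ := good hp hq hne K
  have hshift := log_shift hp hq hst hg
  obtain ⟨ha, hc, hdet, hab, hcd⟩ := hst
  set A := ∑' u, t p q u with hA
  set D : ℝ := (p : ℝ) ^ a * (q : ℝ) ^ b with hD
  have hD0 : 0 < D := by rw [hD]; positivity
  have hsum := t_summable (p := p) (q := q) hp hq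
  have hsa : Summable (fun u => t p q (u + a)) := (summable_nat_add_iff a).2 hsum
  have hsplit : ∑ u ∈ Finset.range a, t p q u + ∑' u, t p q (u + a) = A :=
    hsum.sum_add_tsum_nat_add a
  -- the differences
  let g : ℕ → ℝ := fun u => t p q u / D - t p q (u + a)
  have hgs : Summable g := (hsum.div_const D).sub hsa
  have hgt : ∑' u, g u = A / D - ∑' u, t p q (u + a) := by
    rw [Summable.tsum_sub (hsum.div_const D) hsa, tsum_div_const]
  have hshift_t : ∀ u, t p q u / D = 1 / ((p : ℝ) ^ (u + a) * (q : ℝ) ^ (Nat.log q (p ^ u) + b)) := by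
    intro u
    unfold t
    rw [hD, div_div, pow_add, pow_add]
    congr 1
    ring
  have hq1 : (1 : ℝ) < q := by exact_mod_cast (by omega : 1 < q)
  have hg0 : ∀ u, 0 ≤ g u := by
    intro u
    change 0 ≤ t p q u / D - t p q (u + a)
    rw [hshift_t, sub_nonneg]
    unfold t
    apply one_div_le_one_div_of_le (by positivity)
    apply mul_le_mul_of_nonneg_left _ (by positivity)
    exact pow_le_pow_right₀ hq1.le (log_ge hq hp hab u)
  have hgz : ∀ u, u < a + c → g u = 0 := by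
    intro u hu
    change t p q u / D - t p q (u + a) = 0
    rw [hshift_t, sub_eq_zero]
    unfold t
    rw [hshift u hu]
  have hgle : ∀ u, g u ≤ t p q u / D := by
    intro u
    change t p q u / D - t p q (u + a) ≤ t p q u / D
    linarith [(t_pos hp hq (u + a))]
  have hgpos : 0 < ∑' u, g u := by
    have hex : ∃ u, 0 < g u := by
      by_contra hno
      push Not at hno
      have hz : ∀ u, g u = 0 := fun u => le_antisymm (hno u) (hg0 u)
      have hlog : ∀ u, Nat.log q (p ^ (u + a)) = Nat.log q (p ^ u) + b := by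
        intro u
        have h1 : t p q u / D - t p q (u + a) = 0 := hz u
        rw [hshift_t, sub_eq_zero] at h1
        unfold t at h1
        rw [one_div, one_div] at h1
        have h2 := inv_injective h1
        have h3 := mul_left_cancel₀ (by positivity) h2
        have h4 := pow_right_injective₀ (by linarith) (by linarith [hq1]) h3
        exact h4.symm
      have hn : ∀ n : ℕ, Nat.log q (p ^ (n * a)) = n * b := by
        intro n
        induction n with
        | zero => simp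
        | succ n ih => rw [Nat.succ_mul, hlog, ih, Nat.succ_mul]
      have h1 : (1 : ℝ) < (p : ℝ) ^ a / (q : ℝ) ^ b := by
        rw [one_lt_div (by positivity)]
        exact_mod_cast hab
      obtain ⟨n, hn2⟩ := pow_unbounded_of_one_lt (q : ℝ) h1
      rw [div_pow, lt_div_iff₀ (by positivity)] at hn2
      have h5 : p ^ (n * a) < q ^ (n * b + 1) := by
        have := Nat.lt_pow_succ_log_self (b := q) (by omega) (p ^ (n * a))
        rwa [hn n] at this
      have h6 : (p : ℝ) ^ (n * a) < (q : ℝ) ^ (n * b + 1) := by exact_mod_cast h5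
      rw [← pow_mul, ← pow_mul, mul_comm a, mul_comm b] at hn2
      rw [pow_succ] at h6
      linarith [mul_comm (q : ℝ) ((q : ℝ) ^ (n * b))]
    obtain ⟨u, hu⟩ := hex
    exact hgs.tsum_pos hg0 u hu
  have hgle2 : ∑' u, g u ≤ 2 * q * (1 / (p : ℝ) ^ 2) ^ (a + c) / D := by
    have h1 : ∑ u ∈ Finset.range (a + c), g u + ∑' u, g (u + (a + c)) = ∑' u, g u :=
      hgs.sum_add_tsum_nat_add (a + c)
    have h2 : ∑ u ∈ Finset.range (a + c), g u = 0 :=
      Finset.sum_eq_zero (fun u hu => hgz u (Finset.mem_range.1 hu))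
    rw [← h1, h2, zero_add]
    have h3 : ∑' u, g (u + (a + c)) ≤ ∑' u, t p q (u + (a + c)) / D := by
      apply Summable.tsum_le_tsum (fun u => hgle _) ((summable_nat_add_iff (a + c)).2 hgs)
      exact ((summable_nat_add_iff (a + c)).2 hsum).div_const D
    refine le_trans h3 ?_
    rw [tsum_div_const]
    exact div_le_div_of_nonneg_right (tail_le hp hq (a + c)) hD0.le
  -- the integers
  have hlogle : ∀ u, u ≤ a → Nat.log q (p ^ u) ≤ b := by
    intro u hu
    have h1 := hshift 0 (by omega)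
    simp only [zero_add, pow_zero, Nat.log_one_right] at h1
    rw [← h1]
    exact Nat.log_mono_right (Nat.pow_le_pow_right (by omega) hu)
  let N : ℕ := ∑ u ∈ Finset.range a, p ^ (a - u) * q ^ (b - Nat.log q (p ^ u))
  have hN : (N : ℝ) = D * ∑ u ∈ Finset.range a, t p q u := by
    rw [Finset.mul_sum]
    simp only [N]
    push_cast
    apply Finset.sum_congr rfl
    intro u hu
    have hu' := Finset.mem_range.1 hu
    have hl := hlogle u hu'.le
    unfold t
    rw [hD, mul_one_div, eq_div_iff (by positivity)]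
    have e1 : (p : ℝ) ^ (a - u) * (p : ℝ) ^ u = (p : ℝ) ^ a := by
      rw [← pow_add, Nat.sub_add_cancel hu'.le]
    have e2 : (q : ℝ) ^ (b - Nat.log q (p ^ u)) * (q : ℝ) ^ (Nat.log q (p ^ u)) = (q : ℝ) ^ b := by
      rw [← pow_add, Nat.sub_add_cancel hl]
    calc (p : ℝ) ^ (a - u) * (q : ℝ) ^ (b - Nat.log q (p ^ u)) *
          ((p : ℝ) ^ u * (q : ℝ) ^ (Nat.log q (p ^ u)))
        = ((p : ℝ) ^ (a - u) * (p : ℝ) ^ u) *
          ((q : ℝ) ^ (b - Nat.log q (p ^ u)) * (q : ℝ) ^ (Nat.log q (p ^ u))) := by ring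
      _ = _ := by rw [e1, e2]
  have hDnat : D = ((p ^ a * q ^ b : ℕ) : ℝ) := by rw [hD]; push_cast; rfl
  have hD2 : 2 ≤ p ^ a * q ^ b := by
    have h1 : p ^ 1 ≤ p ^ a := Nat.pow_le_pow_right (by omega) ha
    have h2 : 1 ≤ q ^ b := Nat.one_le_pow _ _ (by omega)
    nlinarith
  refine ⟨((p ^ a * q ^ b : ℕ) : ℤ) - 1, (N : ℤ), by omega, ?_, ?_⟩
  · push_cast
    have : (N : ℝ) - ((p : ℝ) ^ a * (q : ℝ) ^ b - 1) * A = D * ∑' u, g u := by
      rw [hgt, hN, ← hD, mul_sub, mul_div_cancel₀ _ hD0.ne']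
      have : ∑ u ∈ Finset.range a, t p q u = A - ∑' u, t p q (u + a) := by linarith
      rw [this]
      ring
    rw [this]
    positivity
  · push_cast
    have h8 : (N : ℝ) - ((p : ℝ) ^ a * (q : ℝ) ^ b - 1) * A = D * ∑' u, g u := by
      rw [hgt, hN, ← hD, mul_sub, mul_div_cancel₀ _ hD0.ne']
      have : ∑ u ∈ Finset.range a, t p q u = A - ∑' u, t p q (u + a) := by linarith
      rw [this]
      ring
    rw [h8, ← hD]
    have h9 : (D - 1) * (D * ∑' u, g u) ≤ D * (D * ∑' u, g u) := by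
      have : 0 ≤ D * ∑' u, g u := by positivity
      nlinarith
    have h10 : D * (D * ∑' u, g u) ≤ D * (2 * q * (1 / (p : ℝ) ^ 2) ^ (a + c)) := by
      apply mul_le_mul_of_nonneg_left _ hD0.le
      have := mul_le_mul_of_nonneg_left hgle2 hD0.le
      rwa [mul_div_cancel₀ _ hD0.ne'] at this
    have h11 : D ≤ (p : ℝ) ^ (2 * a) := by
      rw [hD, two_mul, pow_add]
      apply mul_le_mul_of_nonneg_left _ (by positivity)
      exact_mod_cast hab.le
    have h12 : D * (2 * q * (1 / (p : ℝ) ^ 2) ^ (a + c)) ≤ 2 * q * (1 / (p : ℝ) ^ 2) ^ c := by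
      have e1 : (p : ℝ) ^ (2 * a) * (1 / (p : ℝ) ^ 2) ^ a = 1 := by
        rw [pow_mul, ← mul_pow, mul_one_div, div_self (by positivity), one_pow]
      have h13 : (0 : ℝ) ≤ 2 * q * (1 / (p : ℝ) ^ 2) ^ (a + c) := by positivity
      calc D * (2 * q * (1 / (p : ℝ) ^ 2) ^ (a + c))
          ≤ (p : ℝ) ^ (2 * a) * (2 * q * (1 / (p : ℝ) ^ 2) ^ (a + c)) :=
            mul_le_mul_of_nonneg_right h11 h13
        _ = ((p : ℝ) ^ (2 * a) * (1 / (p : ℝ) ^ 2) ^ a) * (2 * q * (1 / (p : ℝ) ^ 2) ^ c) := by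
            rw [pow_add]; ring
        _ = _ := by rw [e1, one_mul]
    have h14 : (1 / (p : ℝ) ^ 2) ^ c ≤ (1 / (p : ℝ) ^ 2) ^ K :=
      pow_le_pow_of_le_one hr0 (by linarith) hKc
    have h15 : 2 * q * (1 / (p : ℝ) ^ 2) ^ c < ε := by
      have h16 : (1 / (p : ℝ) ^ 2) ^ c < ε / (2 * q) := lt_of_le_of_lt h14 hK
      rw [lt_div_iff₀ (by positivity)] at h16
      linarith
    linarith

/-- the series along the powers of p is not a root of a quadratic polynomial -/
theorem not_quadratic {p q : ℕ} (hp : 2 ≤ p) (hq : 2 ≤ q)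
    (hne : ∀ a b : ℕ, 1 ≤ a → p ^ a ≠ q ^ b) (l m n : ℤ) (hl : l ≠ 0) :
    (l : ℝ) * (∑' u, t p q u) ^ 2 + m * (∑' u, t p q u) + n ≠ 0 := by
  intro h0
  set A := ∑' u, t p q u with hA
  set w : ℝ := 2 * l * A + m with hw
  have hl0 : (0 : ℝ) < |(l : ℝ)| := by
    rw [abs_pos]
    exact_mod_cast hl
  -- choose the accuracy
  set ε : ℝ := min 1 (min (1 / (|w| + |(l : ℝ)| + 1)) (if w = 0 then 1 else |w| / |(l : ℝ)|)) with hεd
  have hε0 : 0 < ε := by
    rw [hεd]
    refine lt_min one_pos (lt_min (by positivity) ?_)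
    split_ifs with hw0
    · exact one_pos
    · have : 0 < |w| := abs_pos.2 hw0
      positivity
  obtain ⟨M, N, hM, hδ, hMδ⟩ := approx hp hq hne ε hε0
  rw [← hA] at hδ hMδ
  set δ : ℝ := (N : ℝ) - M * A with hδd
  have hM1 : (1 : ℝ) ≤ M := by exact_mod_cast (by omega : (1 : ℤ) ≤ M)
  have hδε : δ < ε := by nlinarith
  have hε1 : ε ≤ 1 := min_le_left _ _
  have hε2 : ε ≤ 1 / (|w| + |(l : ℝ)| + 1) := le_trans (min_le_right _ _) (min_le_left _ _)
  -- the integer
  have hint : ((l * N ^ 2 + m * N * M + n * M ^ 2 : ℤ) : ℝ) = M * δ * w + l * δ ^ 2 := by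
    push_cast
    have hN : (N : ℝ) = M * A + δ := by rw [hδd]; ring
    have h1 : (n : ℝ) = - ((l : ℝ) * A ^ 2 + m * A) := by linarith
    rw [hN, h1, hw]
    ring
  have hsmall : |((l * N ^ 2 + m * N * M + n * M ^ 2 : ℤ) : ℝ)| < 1 := by
    rw [hint]
    have h1 : |M * δ * w + l * δ ^ 2| ≤ M * δ * |w| + |(l : ℝ)| * δ ^ 2 := by
      refine le_trans (abs_add_le _ _) ?_
      rw [abs_mul, abs_mul, abs_mul, abs_of_pos (by positivity : (0 : ℝ) < M), abs_of_pos hδ,
        abs_of_nonneg (sq_nonneg δ)]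
    have h2 : M * δ * |w| ≤ ε * |w| := mul_le_mul_of_nonneg_right hMδ.le (abs_nonneg _)
    have h3 : δ ^ 2 ≤ ε := by nlinarith
    have h4 : |(l : ℝ)| * δ ^ 2 ≤ |(l : ℝ)| * ε := mul_le_mul_of_nonneg_left h3 hl0.le
    have h5 : ε * (|w| + |(l : ℝ)| + 1) ≤ 1 := by
      rw [le_div_iff₀ (by positivity)] at hε2
      exact hε2
    nlinarith
  have hz : (l * N ^ 2 + m * N * M + n * M ^ 2 : ℤ) = 0 := by
    have : |(l * N ^ 2 + m * N * M + n * M ^ 2 : ℤ)| < 1 := by exact_mod_cast hsmall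
    exact Int.abs_lt_one_iff.1 this
  rw [hz] at hint
  push_cast at hint
  have h6 : M * w + l * δ = 0 := by
    have : δ * (M * w + l * δ) = 0 := by linarith [hint]
    rcases mul_eq_zero.1 this with h | h
    · exact absurd h hδ.ne'
    · exact h
  by_cases hw0 : w = 0
  · rw [hw0, mul_zero, zero_add] at h6
    rcases mul_eq_zero.1 h6 with h | h
    · exact hl (by exact_mod_cast h)
    · exact hδ.ne' h
  · have hε3 : ε ≤ |w| / |(l : ℝ)| := by
      refine le_trans (min_le_right _ _) (le_trans (min_le_right _ _) ?_)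
      rw [if_neg hw0]
    rw [le_div_iff₀ hl0] at hε3
    have h7 : |w| ≤ M * |w| := by nlinarith [abs_nonneg w]
    have h8 : (M : ℝ) * |w| = |(l : ℝ)| * δ := by
      have h9 : (M : ℝ) * w = - (l * δ) := by linarith
      have h10 := congrArg abs h9
      rw [abs_neg, abs_mul, abs_mul, abs_of_pos (by positivity : (0 : ℝ) < M), abs_of_pos hδ] at h10
      exact h10
    nlinarith

end Pool.Agent.H999R3.Lcm
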